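import Pool.Agent.H77.PM.Targets

/-!
MP_5607ba_lc, hereditary classes of Polish metric structures: part (1) from the discrete theorem.
-/

set_option autoImplicit false

open Set Filter Topology

namespace Pool.Agent.H63.PM

open Pool.Agent.H77.PM

theorem pf_ONE (hPER : T_PER) (hTIL : T_TIL) (hISA : T_ISA) (hISB : T_ISB) (hMFD : T_MFD)
    (hANA : T_ANA) : T_ONE := by
  intro r hD1 ι _ ar hr Z _ _ _ _ X hX hcode
  by_cases hc : CountablyMany {x ∈ X | PerfectlyMany (Sub x)}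
  swap
  · exact Or.inr (Or.inr hc)
  obtain ⟨hT1, hT2, hT3, hT4⟩ := hTIL ι ar Z r hr
  obtain ⟨Dp, hDp, hDp'⟩ := hc
  have hinf : ∀ x ∈ X, ¬ FD x → ∃ z ∈ Dp, Same x z := by
    intro x hx hfd
    obtain ⟨S, p, hE, hxp⟩ := hcode x hx
    refine hDp' x ⟨hx, ?_⟩
    refine hPER ι ar Z S p 0 (Sub x) hE.1 ?_ ?_
    · intro hfin
      apply hfd
      refine hfin.subset ?_
      rintro d ⟨i, j, rfl⟩
      exact ⟨(p i, p j), by rw [hxp]; rfl⟩
    · intro q hq _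
      exact ⟨S, p, q, hE, hxp, hq, rfl⟩
  have hXt : IsAnalytic (til r hr '' (X ∩ {x : Code ι ar Z | FD x})) :=
    hANA _ _ X _ _ hX (hMFD ι ar Z) hT3
  rcases hD1 (ℝ × (ι → Z)) _ hXt with h | h | h
  · obtain ⟨D, hD, hD'⟩ := h
    refine Or.inl ⟨dec r '' D ∪ Dp, (hD.image _).union hDp, ?_⟩
    intro x hx
    by_cases hfd : FD x
    · obtain ⟨y, hy, g, hg⟩ := hD' (til r hr x) ⟨x, ⟨hx, hfd⟩, rfl⟩
      obtain ⟨S, hS⟩ := hcode x hx
      exact ⟨dec r y, Or.inl ⟨y, hy, rfl⟩, (hISB ι ar Z r hr S x y g hS hg).2.1⟩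
    · obtain ⟨z, hz, hz'⟩ := hinf x hx hfd
      exact ⟨z, Or.inr hz, hz'⟩
  · obtain ⟨F, hF, hFX, hFn⟩ := h
    refine Or.inr (Or.inl ⟨fun u => dec r (F u), hT4.comp hF, ?_, ?_⟩)
    · intro u
      obtain ⟨x, ⟨hx, _⟩, hxu⟩ := hFX u
      show dec r (F u) ∈ X
      rw [← hxu, hT1]
      exact hx
    · intro u v huv hs
      obtain ⟨x, ⟨hx, hxf⟩, hxu⟩ := hFX u
      obtain ⟨y, ⟨hy, _⟩, hyv⟩ := hFX v
      have hs' : Same (dec r (F u)) (dec r (F v)) := hs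
      rw [← hxu, ← hyv, hT1, hT1] at hs'
      obtain ⟨_, g, hg⟩ := hISA ι ar Z r hr x y hxf hs'
      refine hFn u v huv ⟨g, ?_⟩
      rw [← hxu, ← hyv]
      exact hg
  · refine absurd ?_ h
    refine ⟨til r hr '' Dp, hDp.image _, ?_⟩
    rintro y ⟨⟨x, ⟨hx, hxf⟩, rfl⟩, F, hF, hFS, hFn⟩
    obtain ⟨S, p, hE, hxp⟩ := hcode x hx
    have hsub : ∀ u, ∃ f : ℕ → ℕ, Function.Injective f ∧ F u = til r hr (re x f) := by
      intro u
      obtain ⟨f, hf, hfu⟩ := hFS u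
      exact ⟨f, hf, by rw [hfu, hT2]⟩
    have hperf : PerfectlyMany (Sub x) := by
      refine ⟨fun u => dec r (F u), hT4.comp hF, ?_, ?_⟩
      · intro u
        obtain ⟨f, hf, hfu⟩ := hsub u
        refine ⟨S, p, p ∘ f, hE, hxp, hE.1.comp hf, ?_⟩
        show dec r (F u) = _
        rw [hfu, hT1, hxp]
        rfl
      · intro u v huv hs
        obtain ⟨f, hf, hfu⟩ := hsub u
        obtain ⟨f', hf', hfv⟩ := hsub v
        have hs' : Same (re x f) (re x f') := by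
          have : Same (dec r (F u)) (dec r (F v)) := hs
          rwa [hfu, hfv, hT1, hT1] at this
        have hfd : FD (re x f) := by
          refine hxf.subset ?_
          rintro d ⟨i, j, rfl⟩
          exact ⟨f i, f j, rfl⟩
        obtain ⟨_, g, hg⟩ := hISA ι ar Z r hr _ _ hfd hs'
        refine hFn u v huv ⟨g, ?_⟩
        rw [hfu, hfv]
        exact hg
    obtain ⟨z, hz, hz'⟩ := hDp' x ⟨hx, hperf⟩
    obtain ⟨_, g, hg⟩ := hISA ι ar Z r hr x z hxf hz'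
    exact ⟨til r hr z, ⟨z, hz, rfl⟩, g, hg⟩

end Pool.Agent.H63.PM
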